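import Pool.Agent.H785R2.ABC.A12

/-!
# Integers weighted by `z ^ ω(n) / rad n`, where `z` may be as large as a multiple of `log X`

For every `δ > 0` and `A` the sum of `z ^ ω(n) / rad n` over the integers `n ≤ X` is
`O (X ^ δ)`, uniformly for `0 ≤ z ≤ A (1 + log X)`.
-/

set_option autoImplicit false

namespace Pool.Agent.R479.HK

open Finset

theorem one_add_le {u s : ℝ} (hu : 0 ≤ u) (hs : 0 < s) (hs1 : s ≤ 1) :
    1 + u ≤ Real.exp (u ^ s / s) := by
  have h1 : (1 + u) ^ s ≤ 1 + u ^ s := by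
    lift u to NNReal using hu
    have h := NNReal.rpow_add_le_add_rpow 1 u hs.le hs1
    rw [NNReal.one_rpow] at h
    exact_mod_cast h
  have h3 : (1 + u) ^ s ≤ Real.exp (u ^ s) := by
    have := Real.add_one_le_exp (u ^ s)
    linarith
  have h4 : ((1 + u) ^ s) ^ (1 / s) ≤ (Real.exp (u ^ s)) ^ (1 / s) :=
    Real.rpow_le_rpow (by positivity) h3 (by positivity)
  rw [← Real.rpow_mul (by linarith), mul_one_div_cancel hs.ne', Real.rpow_one,
    ← Real.exp_mul] at h4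
  calc 1 + u ≤ Real.exp (u ^ s * (1 / s)) := h4
    _ = Real.exp (u ^ s / s) := by rw [mul_one_div]

/-- the Euler product -/
theorem prod_le {δ : ℝ} (hδ : 0 < δ) : ∃ C : ℝ, 0 ≤ C ∧ ∀ (P : Finset ℕ) (z : ℝ), 0 ≤ z →
    ∏ p ∈ P, (1 + z * (p : ℝ) ^ (-1 - δ)) ≤ Real.exp (C * z ^ (1 / (1 + δ / 2))) := by
  set s : ℝ := 1 / (1 + δ / 2) with hs
  have hs0 : 0 < s := by positivity
  have hs1 : s ≤ 1 := by
    rw [hs, div_le_one (by positivity)]; linarith
  -- the exponent `t = (1 + δ) s > 1`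
  have ht : 1 < (1 + δ) * s := by
    rw [hs, mul_one_div, one_lt_div (by positivity)]; linarith
  have hsum : Summable fun n : ℕ => (n : ℝ) ^ (-((1 + δ) * s)) :=
    Real.summable_nat_rpow.mpr (by linarith)
  refine ⟨(∑' n : ℕ, (n : ℝ) ^ (-((1 + δ) * s))) / s, ?_, ?_⟩
  · exact div_nonneg (tsum_nonneg fun n => by positivity) hs0.le
  · intro P z hz
    have h1 : ∏ p ∈ P, (1 + z * (p : ℝ) ^ (-1 - δ)) ≤
        ∏ p ∈ P, Real.exp ((z * (p : ℝ) ^ (-1 - δ)) ^ s / s) := by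
      refine Finset.prod_le_prod (fun p _ => by positivity) fun p _ => ?_
      exact one_add_le (by positivity) hs0 hs1
    refine h1.trans ?_
    rw [← Real.exp_sum, Real.exp_le_exp, ← Finset.sum_div]
    have h2 : ∑ p ∈ P, (z * (p : ℝ) ^ (-1 - δ)) ^ s =
        z ^ s * ∑ p ∈ P, (p : ℝ) ^ (-((1 + δ) * s)) := by
      rw [Finset.mul_sum]
      refine Finset.sum_congr rfl fun p _ => ?_
      rw [Real.mul_rpow hz (by positivity), ← Real.rpow_mul (by positivity)]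
      congr 2
      ring
    rw [h2]
    have h3 : ∑ p ∈ P, (p : ℝ) ^ (-((1 + δ) * s)) ≤ ∑' n : ℕ, (n : ℝ) ^ (-((1 + δ) * s)) :=
      hsum.sum_le_tsum P fun n _ => by positivity
    have h4 : 0 ≤ z ^ s := by positivity
    calc (z ^ s * ∑ p ∈ P, (p : ℝ) ^ (-((1 + δ) * s))) / s
        ≤ (z ^ s * (∑' n : ℕ, (n : ℝ) ^ (-((1 + δ) * s)))) / s := by gcongr
      _ = (∑' n : ℕ, (n : ℝ) ^ (-((1 + δ) * s))) / s * z ^ s := by ring

/-- a small power of `z ≪ log X` -/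
theorem exp_le {C A s δ : ℝ} (hC : 0 ≤ C) (hs0 : 0 < s) (hs : s < 1) (hδ : 0 < δ) :
    ∃ D : ℝ, 0 < D ∧ ∀ X z : ℝ, 1 ≤ X → 0 ≤ z → z ≤ A * (1 + Real.log X) →
      Real.exp (C * z ^ s) ≤ D * X ^ δ := by
  -- `C (A' t) ^ s - δ t` is bounded above for `t ≥ 0`
  set A' : ℝ := max A 0 with hA'
  have hA0 : 0 ≤ A' := le_max_right _ _
  obtain ⟨B, hB⟩ : ∃ B : ℝ, ∀ t : ℝ, 1 ≤ t → C * (A' * t) ^ s ≤ δ * t + B := by
    have hlim : Filter.Tendsto (fun t : ℝ => δ * t ^ (1 - s)) Filter.atTop Filter.atTop :=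
      (tendsto_rpow_atTop (by linarith)).const_mul_atTop hδ
    obtain ⟨t₀, ht₀⟩ := Filter.eventually_atTop.mp
      (hlim.eventually_ge_atTop (C * A' ^ s))
    refine ⟨C * (A' * max t₀ 1) ^ s, fun t ht => ?_⟩
    have ht0 : 0 < t := by linarith
    rcases le_total t₀ t with h | h
    · have h1 := ht₀ t h
      have h2 : C * (A' * t) ^ s ≤ δ * t := by
        rw [Real.mul_rpow hA0 ht0.le]
        calc C * (A' ^ s * t ^ s) = (C * A' ^ s) * t ^ s := by ring
          _ ≤ (δ * t ^ (1 - s)) * t ^ s := by gcongr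
          _ = δ * t := by
              rw [mul_assoc, ← Real.rpow_add ht0, sub_add_cancel, Real.rpow_one]
      have h3 : 0 ≤ C * (A' * max t₀ 1) ^ s := by positivity
      linarith
    · have h2 : C * (A' * t) ^ s ≤ C * (A' * max t₀ 1) ^ s := by
        have : t ≤ max t₀ 1 := h.trans (le_max_left _ _)
        gcongr
      have : 0 ≤ δ * t := by positivity
      linarith
  refine ⟨Real.exp (δ + B), Real.exp_pos _, fun X z hX hz hzX => ?_⟩
  have hX0 : 0 < X := by linarith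
  have hl : 0 ≤ Real.log X := Real.log_nonneg hX
  have h1 : C * z ^ s ≤ C * (A' * (1 + Real.log X)) ^ s := by
    have : z ≤ A' * (1 + Real.log X) := hzX.trans (by
      have : A ≤ A' := le_max_left _ _
      gcongr)
    gcongr
  have h2 := hB (1 + Real.log X) (by linarith)
  rw [Real.rpow_def_of_pos hX0, ← Real.exp_add]
  apply Real.exp_le_exp.mpr
  calc C * z ^ s ≤ δ * (1 + Real.log X) + B := h1.trans h2
    _ = δ + B + Real.log X * δ := by ring

open Pool.Agent.H785R2.ABC in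
/-- **The weighted sum.** -/
theorem key {δ A : ℝ} (hδ : 0 < δ) : ∃ D : ℝ, 0 < D ∧ ∀ X : ℕ, 1 ≤ X → ∀ z : ℝ, 0 ≤ z →
    z ≤ A * (1 + Real.log X) →
    ∑ n ∈ Icc 1 X, z ^ n.primeFactors.card / (rad n : ℝ) ≤ D * (X : ℝ) ^ δ := by
  have hδ3 : 0 < δ / 3 := by positivity
  obtain ⟨D₁, hD₁, h₁⟩ := stmtA2 (δ / 3) hδ3
  obtain ⟨C, hC, h₂⟩ := prod_le hδ3
  have hs1 : 1 / (1 + δ / 3 / 2) < 1 := by
    rw [div_lt_one (by positivity)]; linarith
  obtain ⟨D₂, hD₂, h₃⟩ := exp_le (A := A) hC (s := 1 / (1 + δ / 3 / 2)) (by positivity) hs1 hδ3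
  refine ⟨D₁ * D₂, by positivity, fun X hX z hz hzX => ?_⟩
  have hX1 : (1 : ℝ) ≤ X := by exact_mod_cast hX
  have hX0 : (0 : ℝ) < X := by linarith
  classical
  set P : Finset ℕ := (Icc 1 X).filter Nat.Prime with hP
  have hmaps : ∀ n ∈ Icc 1 X, n.primeFactors ∈ P.powerset := by
    intro n hn
    rw [Finset.mem_powerset]
    intro p hp
    rw [Finset.mem_Icc] at hn
    have hpp := Nat.prime_of_mem_primeFactors hp
    rw [hP, Finset.mem_filter, Finset.mem_Icc]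
    exact ⟨⟨hpp.one_le, (Nat.le_of_dvd (by omega) (Nat.dvd_of_mem_primeFactors hp)).trans hn.2⟩,
      hpp⟩
  rw [← Finset.sum_fiberwise_of_maps_to hmaps]
  have hfib : ∀ T ∈ P.powerset,
      ∑ n ∈ (Icc 1 X).filter (fun n => n.primeFactors = T),
        z ^ n.primeFactors.card / (rad n : ℝ) ≤
      D₁ * (X : ℝ) ^ (δ / 3) * ((X : ℝ) ^ (δ / 3) * ∏ p ∈ T, (z * (p : ℝ) ^ (-1 - δ / 3))) := by
    intro T hT
    rw [Finset.mem_powerset] at hT
    have hTp : ∀ p ∈ T, p.Prime := fun p hp => (Finset.mem_filter.mp (hT hp)).2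
    have hg0 : 0 < ∏ p ∈ T, p := Finset.prod_pos fun p hp => (hTp p hp).pos
    have hg0' : (0 : ℝ) < ((∏ p ∈ T, p : ℕ) : ℝ) := by exact_mod_cast hg0
    have hprod0 : 0 ≤ ∏ p ∈ T, (z * (p : ℝ) ^ (-1 - δ / 3)) :=
      Finset.prod_nonneg fun p _ => by positivity
    have h4 : ∑ n ∈ (Icc 1 X).filter (fun n => n.primeFactors = T),
        z ^ n.primeFactors.card / (rad n : ℝ) =
        (((Icc 1 X).filter (fun n => n.primeFactors = T)).card : ℝ) *
          (z ^ T.card / ((∏ p ∈ T, p : ℕ) : ℝ)) := by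
      rw [Finset.card_eq_sum_ones, Nat.cast_sum, Finset.sum_mul]
      refine Finset.sum_congr rfl fun n hn => ?_
      have hn2 := (Finset.mem_filter.mp hn).2
      rw [show rad n = ∏ p ∈ n.primeFactors, p from rfl, hn2]
      simp
    rw [h4]
    rcases ((Icc 1 X).filter (fun n => n.primeFactors = T)).eq_empty_or_nonempty with he | ⟨n, hn⟩
    · rw [he, Finset.card_empty, Nat.cast_zero, zero_mul]
      positivity
    · have hn1 := Finset.mem_Icc.mp (Finset.mem_filter.mp hn).1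
      have hn2 := (Finset.mem_filter.mp hn).2
      have hgX : ((∏ p ∈ T, p : ℕ) : ℝ) ≤ X := by
        have h5 : ∏ p ∈ T, p ≤ n := by
          rw [← hn2]
          exact Nat.le_of_dvd (by omega) (Nat.prod_primeFactors_dvd n)
        exact_mod_cast h5.trans hn1.2
      have hcard : (((Icc 1 X).filter (fun n => n.primeFactors = T)).card : ℝ) ≤
          D₁ * (X : ℝ) ^ (δ / 3) := by
        refine le_trans ?_ (h₁ X hX (∏ p ∈ T, p))
        have : (Icc 1 X).filter (fun n => n.primeFactors = T) ⊆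
            (Icc 1 X).filter (fun d => rad d = ∏ p ∈ T, p) := by
          intro m hm
          rw [Finset.mem_filter] at hm ⊢
          refine ⟨hm.1, ?_⟩
          rw [show rad m = ∏ p ∈ m.primeFactors, p from rfl, hm.2]
        exact_mod_cast Finset.card_le_card this
      have h6 : z ^ T.card / ((∏ p ∈ T, p : ℕ) : ℝ) ≤
          (X : ℝ) ^ (δ / 3) * ∏ p ∈ T, (z * (p : ℝ) ^ (-1 - δ / 3)) := by
        rw [Finset.prod_mul_distrib, Finset.prod_const, Real.finsetProd_rpow _ _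
          (fun p _ => Nat.cast_nonneg p)]
        push_cast
        rw [show ∏ p ∈ T, (p : ℝ) = ((∏ p ∈ T, p : ℕ) : ℝ) by push_cast; rfl]
        set G : ℝ := ((∏ p ∈ T, p : ℕ) : ℝ) with hG
        have h7 : G ^ (-1 - δ / 3) = G⁻¹ * G ^ (-(δ / 3)) := by
          rw [show -1 - δ / 3 = -1 + -(δ / 3) by ring, Real.rpow_add hg0', Real.rpow_neg_one]
        have h8 : 1 ≤ (X : ℝ) ^ (δ / 3) * G ^ (-(δ / 3)) := by
          rw [Real.rpow_neg hg0'.le, ← div_eq_mul_inv, one_le_div (by positivity)]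
          exact Real.rpow_le_rpow hg0'.le hgX hδ3.le
        rw [h7]
        calc z ^ T.card / G = z ^ T.card * G⁻¹ * 1 := by rw [mul_one, div_eq_mul_inv]
          _ ≤ z ^ T.card * G⁻¹ * ((X : ℝ) ^ (δ / 3) * G ^ (-(δ / 3))) := by gcongr
          _ = (X : ℝ) ^ (δ / 3) * (z ^ T.card * (G⁻¹ * G ^ (-(δ / 3)))) := by ring
      exact mul_le_mul hcard h6 (by positivity) (by positivity)
  calc ∑ T ∈ P.powerset, ∑ n ∈ (Icc 1 X).filter (fun n => n.primeFactors = T),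
        z ^ n.primeFactors.card / (rad n : ℝ)
      ≤ ∑ T ∈ P.powerset, D₁ * (X : ℝ) ^ (δ / 3) *
        ((X : ℝ) ^ (δ / 3) * ∏ p ∈ T, (z * (p : ℝ) ^ (-1 - δ / 3))) := Finset.sum_le_sum hfib
    _ = D₁ * (X : ℝ) ^ (δ / 3) * ((X : ℝ) ^ (δ / 3) *
          ∏ p ∈ P, (1 + z * (p : ℝ) ^ (-1 - δ / 3))) := by
        rw [← Finset.mul_sum, ← Finset.mul_sum, Finset.prod_one_add]
    _ ≤ D₁ * (X : ℝ) ^ (δ / 3) * ((X : ℝ) ^ (δ / 3) * (D₂ * (X : ℝ) ^ (δ / 3))) := by
        have := (h₂ P z hz).trans (h₃ X z hX1 hz hzX)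
        gcongr
    _ = D₁ * D₂ * (X : ℝ) ^ δ := by
        have : (X : ℝ) ^ δ = (X : ℝ) ^ (δ / 3) * (X : ℝ) ^ (δ / 3) * (X : ℝ) ^ (δ / 3) := by
          rw [← Real.rpow_add hX0, ← Real.rpow_add hX0]
          congr 1
          ring
        rw [this]
        ring

end Pool.Agent.R479.HK
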