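import Pool.Agent.Cov.PNT

/-!
# The second term of the prime counting function, and products of two primorial-like numbers
-/

set_option autoImplicit false

namespace Pool.Agent.R479.HK

open Filter Topology Chebyshev MeasureTheory

/-- `π(x) log x - θ(x) ≥ (1 - ε) x / log x` for large `x` -/
theorem pi_second {ε : ℝ} (hε : 0 < ε) (hε1 : ε < 1) : ∀ᶠ x : ℝ in atTop,
    (1 - ε) * (x / Real.log x) ≤
      (Nat.primeCounting ⌊x⌋₊ : ℝ) * Real.log x - Chebyshev.theta x := by
  have h1 : ∀ᶠ x : ℝ in atTop, 1 - ε / 2 < Chebyshev.theta x / x :=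
    Pool.Agent.Cov.PNT.theta_div_tendsto.eventually (lt_mem_nhds (by linarith))
  obtain ⟨t₁, ht₁⟩ := eventually_atTop.mp h1
  set t₀ : ℝ := max t₁ 2 with ht₀
  have h2 : (2 : ℝ) ≤ t₀ := le_max_right _ _
  have h3 : ∀ t : ℝ, t₀ ≤ t → (1 - ε / 2) * t ≤ Chebyshev.theta t := by
    intro t ht
    have h4 := ht₁ t ((le_max_left _ _).trans ht)
    rw [lt_div_iff₀ (by linarith)] at h4
    exact h4.le
  filter_upwards [eventually_ge_atTop t₀,
    eventually_ge_atTop ((1 - ε / 2) * t₀ / (ε / 2))] with x hx hx2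
  have hx2' : (2 : ℝ) ≤ x := h2.trans hx
  have hlx : 0 < Real.log x := Real.log_pos (by linarith)
  have hint : IntegrableOn (fun t => Chebyshev.theta t / (t * Real.log t ^ 2)) (Set.Icc 2 x)
      volume := Chebyshev.integrableOn_theta_div_id_mul_log_sq x
  have hi1 : IntervalIntegrable (fun t => Chebyshev.theta t / (t * Real.log t ^ 2)) volume 2 t₀ := by
    rw [intervalIntegrable_iff_integrableOn_Icc_of_le h2]
    exact hint.mono_set (Set.Icc_subset_Icc le_rfl hx)
  have hi2 : IntervalIntegrable (fun t => Chebyshev.theta t / (t * Real.log t ^ 2)) volume t₀ x := by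
    rw [intervalIntegrable_iff_integrableOn_Icc_of_le hx]
    exact hint.mono_set (Set.Icc_subset_Icc h2 le_rfl)
  have h5 := Chebyshev.primeCounting_eq_theta_div_log_add_integral hx2'
  rw [← intervalIntegral.integral_add_adjacent_intervals hi1 hi2] at h5
  have h6 : 0 ≤ ∫ t in (2 : ℝ)..t₀, Chebyshev.theta t / (t * Real.log t ^ 2) := by
    refine intervalIntegral.integral_nonneg h2 fun t ht => ?_
    have := Chebyshev.theta_nonneg t
    have : (0 : ℝ) < t := by linarith [ht.1]
    positivity
  have h7 : (x - t₀) * ((1 - ε / 2) / Real.log x ^ 2) ≤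
      ∫ t in t₀..x, Chebyshev.theta t / (t * Real.log t ^ 2) := by
    have h8 : ∫ _ in t₀..x, (1 - ε / 2) / Real.log x ^ 2 =
        (x - t₀) * ((1 - ε / 2) / Real.log x ^ 2) := by
      rw [intervalIntegral.integral_const, smul_eq_mul]
    rw [← h8]
    refine intervalIntegral.integral_mono_on hx (by simp) hi2 fun t ht => ?_
    have ht2 : (2 : ℝ) ≤ t := h2.trans ht.1
    have ht0 : (0 : ℝ) < t := by linarith
    have hlt : 0 < Real.log t := Real.log_pos (by linarith)
    have hle : Real.log t ≤ Real.log x := Real.log_le_log ht0 ht.2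
    have h9 := h3 t ht.1
    calc (1 - ε / 2) / Real.log x ^ 2 ≤ (1 - ε / 2) / Real.log t ^ 2 := by
          have : 0 ≤ 1 - ε / 2 := by linarith
          gcongr
      _ = ((1 - ε / 2) * t) / (t * Real.log t ^ 2) := by
          field_simp
      _ ≤ Chebyshev.theta t / (t * Real.log t ^ 2) := by gcongr
  have h10 : (x - t₀) * ((1 - ε / 2) / Real.log x ^ 2) ≤
      (Nat.primeCounting ⌊x⌋₊ : ℝ) - Chebyshev.theta x / Real.log x := by
    rw [h5]
    linarith
  have h11 : (1 - ε) * x ≤ (x - t₀) * (1 - ε / 2) := by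
    rw [div_le_iff₀ (by positivity)] at hx2
    nlinarith
  calc (1 - ε) * (x / Real.log x) = ((1 - ε) * x) / Real.log x := by ring
    _ ≤ ((x - t₀) * (1 - ε / 2)) / Real.log x := by gcongr
    _ = ((x - t₀) * ((1 - ε / 2) / Real.log x ^ 2)) * Real.log x := by
        field_simp
    _ ≤ ((Nat.primeCounting ⌊x⌋₊ : ℝ) - Chebyshev.theta x / Real.log x) * Real.log x := by
        gcongr
    _ = (Nat.primeCounting ⌊x⌋₊ : ℝ) * Real.log x - Chebyshev.theta x := by
        field_simp

/-- the gain -/
theorem gain {K : ℝ} (hK : K < 2 + 2 * Real.log (3 / 2)) : ∀ᶠ x : ℝ in atTop,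
    K * ((Chebyshev.theta x / 2 + 2 * Real.log x) /
      Real.log (Chebyshev.theta x / 2 + 2 * Real.log x)) <
      (Nat.primeCounting ⌊x⌋₊ : ℝ) * Real.log (3 / 2 * Chebyshev.theta x) -
        Chebyshev.theta x := by
  set ε : ℝ := min (1 / 2) ((2 + 2 * Real.log (3 / 2) - K) / 8) with hε
  have hε0 : 0 < ε := lt_min (by norm_num) (by linarith)
  have hε1 : ε < 1 := lt_of_le_of_lt (min_le_left _ _) (by norm_num)
  have hεK : 8 * ε ≤ 2 + 2 * Real.log (3 / 2) - K := by
    have : ε ≤ (2 + 2 * Real.log (3 / 2) - K) / 8 := min_le_right _ _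
    linarith
  have hth := Pool.Agent.Cov.PNT.theta_div_tendsto
  have hpi := Pool.Agent.Cov.PNT.pi_tendsto
  have hlog : Tendsto (fun x : ℝ => Real.log x) atTop atTop := Real.tendsto_log_atTop
  have hlx : Tendsto (fun x : ℝ => Real.log x / x) atTop (𝓝 0) := by
    have := Real.isLittleO_log_id_atTop.tendsto_div_nhds_zero
    simpa using this
  -- `L / x → 1 / 2`
  have hL : Tendsto (fun x : ℝ => (Chebyshev.theta x / 2 + 2 * Real.log x) / x) atTop
      (𝓝 (1 / 2)) := by
    have := (hth.const_mul (1 / 2)).add (hlx.const_mul 2)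
    simp only [mul_one, mul_zero, add_zero] at this
    refine this.congr fun x => ?_
    ring
  -- `log x / log L → 1`
  have hlogL : Tendsto (fun x : ℝ => Real.log (Chebyshev.theta x / 2 + 2 * Real.log x) /
      Real.log x) atTop (𝓝 1) := by
    have h1 : Tendsto (fun x : ℝ => Real.log ((Chebyshev.theta x / 2 + 2 * Real.log x) / x))
        atTop (𝓝 (Real.log (1 / 2))) := hL.log (by norm_num)
    have h2 : Tendsto (fun x : ℝ => 1 +
        Real.log ((Chebyshev.theta x / 2 + 2 * Real.log x) / x) / Real.log x) atTop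
        (𝓝 (1 + 0)) := (h1.div_atTop hlog).const_add 1
    rw [add_zero] at h2
    refine h2.congr' ?_
    filter_upwards [eventually_gt_atTop 1] with x hx
    have hx0 : 0 < x := by linarith
    have hl : 0 < Real.log x := Real.log_pos hx
    have hLp : 0 < Chebyshev.theta x / 2 + 2 * Real.log x := by
      have := Chebyshev.theta_nonneg x
      linarith
    rw [Real.log_div hLp.ne' hx0.ne']
    field_simp
    ring
  -- the left side, divided by `x / log x`
  have hleft : Tendsto (fun x : ℝ => K * ((Chebyshev.theta x / 2 + 2 * Real.log x) /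
      Real.log (Chebyshev.theta x / 2 + 2 * Real.log x)) / (x / Real.log x)) atTop
      (𝓝 (K / 2)) := by
    have h1 := (hL.div hlogL one_ne_zero).const_mul K
    have h2 : K * (1 / 2 / 1) = K / 2 := by ring
    rw [h2] at h1
    refine h1.congr' ?_
    filter_upwards [eventually_gt_atTop 1, hL.eventually (lt_mem_nhds (show (0 : ℝ) < 1 / 2 by
      norm_num)), hlogL.eventually (lt_mem_nhds (show (0 : ℝ) < 1 by norm_num))] with x hx h3 h4
    have hx0 : 0 < x := by linarith
    have hl : 0 < Real.log x := Real.log_pos hx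
    have h5 : 0 < Real.log (Chebyshev.theta x / 2 + 2 * Real.log x) := by
      by_contra hcon
      rw [not_lt] at hcon
      exact absurd h4 (not_lt.mpr (div_nonpos_of_nonpos_of_nonneg hcon hl.le))
    simp only [Pi.div_apply]
    field_simp
  -- the second part of the right side
  have hright : Tendsto (fun x : ℝ => (Nat.primeCounting ⌊x⌋₊ : ℝ) * Real.log x / x *
      Real.log (3 / 2 * (Chebyshev.theta x / x))) atTop (𝓝 (1 * Real.log (3 / 2))) := by
    have h1 : Tendsto (fun x : ℝ => Real.log (3 / 2 * (Chebyshev.theta x / x))) atTop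
        (𝓝 (Real.log (3 / 2 * 1))) := (hth.const_mul (3 / 2)).log (by norm_num)
    rw [mul_one] at h1
    exact hpi.mul h1
  rw [one_mul] at hright
  filter_upwards [pi_second hε0 hε1,
    hleft.eventually (gt_mem_nhds (show K / 2 < K / 2 + ε by linarith)),
    hright.eventually (lt_mem_nhds (show Real.log (3 / 2) - ε < Real.log (3 / 2) by linarith)),
    hth.eventually (lt_mem_nhds (show (1 / 2 : ℝ) < 1 by norm_num)),
    eventually_gt_atTop 1] with x h1 h2 h3 h4 hx
  have hx0 : 0 < x := by linarith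
  have hl : 0 < Real.log x := Real.log_pos hx
  have hxl : 0 < x / Real.log x := by positivity
  have hθ : 0 < Chebyshev.theta x := by
    rw [lt_div_iff₀ hx0] at h4
    linarith
  rw [div_lt_iff₀ hxl] at h2
  refine h2.trans ?_
  -- `π log (3 θ / 2) - θ = (π log x - θ) + π log (3 θ / (2 x))`
  have e1 : Real.log (3 / 2 * Chebyshev.theta x) =
      Real.log x + Real.log (3 / 2 * (Chebyshev.theta x / x)) := by
    rw [← Real.log_mul hx0.ne' (by positivity)]
    congr 1
    field_simp
  have e2 : (Nat.primeCounting ⌊x⌋₊ : ℝ) * Real.log x / x *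
      Real.log (3 / 2 * (Chebyshev.theta x / x)) * (x / Real.log x) =
      (Nat.primeCounting ⌊x⌋₊ : ℝ) * Real.log (3 / 2 * (Chebyshev.theta x / x)) := by
    field_simp
  have h5 : (Real.log (3 / 2) - ε) * (x / Real.log x) <
      (Nat.primeCounting ⌊x⌋₊ : ℝ) * Real.log (3 / 2 * (Chebyshev.theta x / x)) := by
    rw [← e2]
    exact mul_lt_mul_of_pos_right h3 hxl
  rw [e1, mul_add]
  have h6 : (K / 2 + ε) * (x / Real.log x) ≤
      ((1 - ε) + (Real.log (3 / 2) - ε)) * (x / Real.log x) := by
    apply mul_le_mul_of_nonneg_right _ hxl.le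
    linarith
  linarith

end Pool.Agent.R479.HK
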