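import Pool.Agent.R479.HK.Key

/-!
# Counting abc triples by `rad (abc) / z ^ ω(abc)`

For all `δ > 0` and `A` there is `D` such that for every `N` and every `z ≤ A (1 + log N)` at most
`D N ^ δ T ^ (2/3)` coprime pairs `(a, b)` with `a + b ≤ N` satisfy
`rad (abc) ≤ T z ^ ω(abc)`, `c = a + b`.
-/

set_option autoImplicit false

namespace Pool.Agent.R479.HK

open Finset Pool.Agent.H785R2.ABC

/-- the weight `rad n / z ^ ω(n)` -/
noncomputable def W (z : ℝ) (n : ℕ) : ℝ := (rad n : ℝ) / z ^ n.primeFactors.card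

theorem W_pos {z : ℝ} (hz : 0 < z) (n : ℕ) : 0 < W z n := by
  have : 0 < rad n := rad_pos' n
  unfold W
  positivity

theorem W_mul {z : ℝ} {m n : ℕ} (h : Nat.Coprime m n) : W z (m * n) = W z m * W z n := by
  unfold W rad
  rw [h.primeFactors_mul, Finset.prod_union h.disjoint_primeFactors,
    Finset.card_union_of_disjoint h.disjoint_primeFactors, pow_add]
  push_cast
  rw [mul_div_mul_comm]

theorem W_inv (z : ℝ) (n : ℕ) : (W z n)⁻¹ = z ^ n.primeFactors.card / (rad n : ℝ) := by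
  unfold W
  rw [inv_div]

/-- pairs with a small product of weights -/
noncomputable def PS (N : ℕ) (z U : ℝ) : Finset (ℕ × ℕ) := by
  classical
  exact ((Icc 1 N) ×ˢ (Icc 1 N)).filter fun q => W z q.1 * W z q.2 ≤ U

theorem PS_card {N : ℕ} {z U : ℝ} (hz : 0 < z) (hU : 0 ≤ U) :
    ((PS N z U).card : ℝ) ≤
      U * (∑ n ∈ Icc 1 N, z ^ n.primeFactors.card / (rad n : ℝ)) ^ 2 := by
  classical
  have h1 : ((PS N z U).card : ℝ) ≤
      ∑ q ∈ (Icc 1 N) ×ˢ (Icc 1 N), U * ((W z q.1)⁻¹ * (W z q.2)⁻¹) := by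
    rw [Finset.card_eq_sum_ones, Nat.cast_sum]
    calc ∑ q ∈ PS N z U, ((1 : ℕ) : ℝ) ≤ ∑ q ∈ PS N z U, U * ((W z q.1)⁻¹ * (W z q.2)⁻¹) := by
          refine Finset.sum_le_sum fun q hq => ?_
          have hq2 : W z q.1 * W z q.2 ≤ U := by
            unfold PS at hq
            exact (Finset.mem_filter.mp hq).2
          have h0 := W_pos hz q.1
          have h0' := W_pos hz q.2
          rw [← mul_inv, ← div_eq_mul_inv, Nat.cast_one, one_le_div (by positivity)]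
          exact hq2
      _ ≤ ∑ q ∈ (Icc 1 N) ×ˢ (Icc 1 N), U * ((W z q.1)⁻¹ * (W z q.2)⁻¹) := by
          refine Finset.sum_le_sum_of_subset_of_nonneg ?_ fun q _ _ => ?_
          · unfold PS
            exact Finset.filter_subset _ _
          · have h0 := W_pos hz q.1
            have h0' := W_pos hz q.2
            positivity
  refine h1.trans (le_of_eq ?_)
  rw [Finset.sum_product, sq, Finset.sum_mul_sum, Finset.mul_sum]
  refine Finset.sum_congr rfl fun m _ => ?_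
  rw [Finset.mul_sum]
  refine Finset.sum_congr rfl fun n _ => ?_
  rw [W_inv, W_inv]

/-- the coprime pairs `(a, b)` with `a + b ≤ N` and `rad (abc) ≤ T z ^ ω(abc)` -/
def TS (N : ℕ) (z T : ℝ) : Set (ℕ × ℕ) :=
  {p | 0 < p.1 ∧ 0 < p.2 ∧ Nat.Coprime p.1 p.2 ∧ p.1 + p.2 ≤ N ∧
    (rad (p.1 * p.2 * (p.1 + p.2)) : ℝ) ≤
      T * z ^ (p.1 * p.2 * (p.1 + p.2)).primeFactors.card}

theorem TS_finite (N : ℕ) (z T : ℝ) : (TS N z T).Finite := by
  refine Set.Finite.subset (Finset.finite_toSet ((Finset.range (N + 1)) ×ˢ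
    (Finset.range (N + 1)))) ?_
  rintro ⟨a, b⟩ ⟨h1, h2, h3, h4, -⟩
  simp only at h1 h2 h3 h4
  simp only [Finset.coe_product, Finset.coe_range, Set.mem_prod, Set.mem_Iio]
  omega

theorem W_triple {z : ℝ} {a b : ℕ} (h : Nat.Coprime a b) :
    W z (a * b * (a + b)) = W z a * W z b * W z (a + b) := by
  have h1 : Nat.Coprime (a * b) (a + b) := by
    refine Nat.Coprime.mul_left ?_ ?_
    · simpa using h
    · simpa using h.symm
  rw [W_mul h1, W_mul h]

theorem TS_card {N : ℕ} {z T : ℝ} (hz : 0 < z) (hT : 0 ≤ T) :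
    ((TS N z T).ncard : ℝ) ≤
      3 * (T ^ ((2 : ℝ) / 3) * (∑ n ∈ Icc 1 N, z ^ n.primeFactors.card / (rad n : ℝ)) ^ 2) := by
  classical
  set U : ℝ := T ^ ((2 : ℝ) / 3) with hU
  have hU0 : 0 ≤ U := by positivity
  have hU3 : U ^ 3 = T ^ 2 := by
    rw [hU, ← Real.rpow_natCast, ← Real.rpow_mul hT, ← Real.rpow_natCast]
    norm_num
  set f₂ : ℕ × ℕ → ℕ × ℕ := fun p => (p.1, p.1 + p.2) with hf₂
  set f₃ : ℕ × ℕ → ℕ × ℕ := fun p => (p.2, p.1 + p.2) with hf₃
  have hcover : TS N z T ⊆ ((PS N z U : Set (ℕ × ℕ)) ∪ f₂ ⁻¹' (PS N z U : Set (ℕ × ℕ))) ∪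
      f₃ ⁻¹' (PS N z U : Set (ℕ × ℕ)) := by
    rintro ⟨a, b⟩ ⟨ha, hb, hab, hN, hr⟩
    simp only at ha hb hab hN hr
    have hw : W z a * W z b * W z (a + b) ≤ T := by
      rw [← W_triple hab]
      unfold W
      rw [div_le_iff₀ (by positivity)]
      exact hr
    have h1 := W_pos hz a
    have h2 := W_pos hz b
    have h3 := W_pos hz (a + b)
    have hmem : ∀ x ∈ Icc 1 N, ∀ y ∈ Icc 1 N, W z x * W z y ≤ U → (x, y) ∈ PS N z U := by
      intro x hx y hy hxy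
      unfold PS
      rw [Finset.mem_filter, Finset.mem_product]
      exact ⟨⟨hx, hy⟩, hxy⟩
    have ha' : a ∈ Icc 1 N := Finset.mem_Icc.mpr ⟨ha, by omega⟩
    have hb' : b ∈ Icc 1 N := Finset.mem_Icc.mpr ⟨hb, by omega⟩
    have hc' : a + b ∈ Icc 1 N := Finset.mem_Icc.mpr ⟨by omega, hN⟩
    by_cases hA : W z a * W z b ≤ U
    · exact Or.inl (Or.inl (hmem a ha' b hb' hA))
    by_cases hB : W z a * W z (a + b) ≤ U
    · exact Or.inl (Or.inr (hmem a ha' _ hc' hB))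
    by_cases hC : W z b * W z (a + b) ≤ U
    · exact Or.inr (hmem b hb' _ hc' hC)
    exfalso
    rw [not_le] at hA hB hC
    have h4 : U * U * U < (W z a * W z b) * (W z a * W z (a + b)) * (W z b * W z (a + b)) := by
      have h5 : U * U ≤ (W z a * W z b) * (W z a * W z (a + b)) :=
        mul_le_mul hA.le hB.le hU0 (by positivity)
      calc U * U * U ≤ (W z a * W z b) * (W z a * W z (a + b)) * U := by gcongr
        _ < _ := by
          have : 0 < (W z a * W z b) * (W z a * W z (a + b)) := by positivity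
          gcongr
    have h6 : (W z a * W z b * W z (a + b)) ^ 2 ≤ T ^ 2 := by
      have : 0 ≤ W z a * W z b * W z (a + b) := by positivity
      gcongr
    nlinarith [h4, h6, hU3]
  have hinj₂ : Function.Injective f₂ := by
    rintro ⟨a, b⟩ ⟨a', b'⟩ h
    simp only [hf₂, Prod.mk.injEq] at h
    ext <;> simp only <;> omega
  have hinj₃ : Function.Injective f₃ := by
    rintro ⟨a, b⟩ ⟨a', b'⟩ h
    simp only [hf₃, Prod.mk.injEq] at h
    ext <;> simp only <;> omega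
  have hfin1 : (PS N z U : Set (ℕ × ℕ)).Finite := Finset.finite_toSet _
  have hfin2 : (f₂ ⁻¹' (PS N z U : Set (ℕ × ℕ))).Finite := hfin1.preimage hinj₂.injOn
  have hfin3 : (f₃ ⁻¹' (PS N z U : Set (ℕ × ℕ))).Finite := hfin1.preimage hinj₃.injOn
  have hc2 : (f₂ ⁻¹' (PS N z U : Set (ℕ × ℕ))).ncard ≤ (PS N z U).card := by
    rw [← Set.ncard_coe_finset (PS N z U), ← Set.ncard_image_of_injective _ hinj₂]
    exact Set.ncard_le_ncard (Set.image_preimage_subset _ _) hfin1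
  have hc3 : (f₃ ⁻¹' (PS N z U : Set (ℕ × ℕ))).ncard ≤ (PS N z U).card := by
    rw [← Set.ncard_coe_finset (PS N z U), ← Set.ncard_image_of_injective _ hinj₃]
    exact Set.ncard_le_ncard (Set.image_preimage_subset _ _) hfin1
  have hcard : (TS N z T).ncard ≤ 3 * (PS N z U).card := by
    refine (Set.ncard_le_ncard hcover ((hfin1.union hfin2).union hfin3)).trans ?_
    refine (Set.ncard_union_le _ _).trans ?_
    have := Set.ncard_union_le (PS N z U : Set (ℕ × ℕ)) (f₂ ⁻¹' (PS N z U : Set (ℕ × ℕ)))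
    rw [Set.ncard_coe_finset] at this
    omega
  calc ((TS N z T).ncard : ℝ) ≤ ((3 * (PS N z U).card : ℕ) : ℝ) := by exact_mod_cast hcard
    _ = 3 * ((PS N z U).card : ℝ) := by push_cast; ring
    _ ≤ _ := by
      have := PS_card (N := N) hz hU0
      linarith

/-- **The number of triples.** -/
theorem count {δ A : ℝ} (hδ : 0 < δ) : ∃ D : ℝ, 0 < D ∧ ∀ N : ℕ, 1 ≤ N → ∀ z : ℝ, 0 < z →
    z ≤ A * (1 + Real.log N) → ∀ T : ℝ, 0 ≤ T →
    ((TS N z T).ncard : ℝ) ≤ D * (N : ℝ) ^ δ * T ^ ((2 : ℝ) / 3) := by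
  obtain ⟨D, hD, h⟩ := key (A := A) (half_pos hδ)
  refine ⟨3 * D ^ 2, by positivity, fun N hN z hz hzA T hT => ?_⟩
  have hN0 : (0 : ℝ) < N := by exact_mod_cast hN
  refine (TS_card hz hT).trans ?_
  have h1 := h N hN z hz.le hzA
  have h0 : 0 ≤ ∑ n ∈ Icc 1 N, z ^ n.primeFactors.card / (rad n : ℝ) :=
    Finset.sum_nonneg fun n _ => by positivity
  have h2 : (∑ n ∈ Icc 1 N, z ^ n.primeFactors.card / (rad n : ℝ)) ^ 2 ≤
      (D * (N : ℝ) ^ (δ / 2)) ^ 2 := by gcongr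
  have h3 : (D * (N : ℝ) ^ (δ / 2)) ^ 2 = D ^ 2 * (N : ℝ) ^ δ := by
    rw [mul_pow, ← Real.rpow_natCast ((N : ℝ) ^ (δ / 2)), ← Real.rpow_mul hN0.le]
    norm_num
  rw [h3] at h2
  have h4 : 0 ≤ T ^ ((2 : ℝ) / 3) := by positivity
  calc 3 * (T ^ ((2 : ℝ) / 3) * (∑ n ∈ Icc 1 N, z ^ n.primeFactors.card / (rad n : ℝ)) ^ 2)
      ≤ 3 * (T ^ ((2 : ℝ) / 3) * (D ^ 2 * (N : ℝ) ^ δ)) := by gcongr
    _ = 3 * D ^ 2 * (N : ℝ) ^ δ * T ^ ((2 : ℝ) / 3) := by ring

end Pool.Agent.R479.HK
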